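import Pool.Agent.H82.RD.Targets
import Pool.Agent.H82.RD.Basic

/-!
# MST: one step of the machine
-/

set_option autoImplicit false

open MvPolynomial

namespace Pool.Agent.H88.RD

open Pool.Agent.H82.RD

theorem im_map {R R' : Type} [CommRing R] [CommRing R'] (φ : R →+* R') {u : ℕ} (A B : ℕ)
    (y : Cl u A B → Fin u → R) (E : Cl u A B → R) :
    im A B (fun r i => φ (y r i)) (fun r => φ (E r)) = (im A B y E).map φ := by
  ext r c
  simp [im]

theorem pf_MST (hMDV : T_MDV) (hDRK : T_DRK) (hZLM : T_ZLM) : T_MST := by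
  classical
  intro q _ v ι S W π den num ζ κ e g D H A B hM hA hB he hNC
  rcases S.eq_empty_or_nonempty with hS | ⟨s₀, hs₀⟩
  · left
    simp [hS]
  set φ : ℤ_[q] →+* ℚ_[q] := PadicInt.Coe.ringHom with hφ
  let K : Set ((Fin (v + 1) → ℚ_[q]) × ℚ_[q]) :=
    {x | ∃ k : Fin (v + 2) → ι, (∀ i, k i ∈ S) ∧
      x = (fun l => φ (∑ i, (W (k i) l - W s₀ l)), φ ((∏ i, π (k i) : ℕ) : ℤ_[q]))}
  obtain ⟨P, hP0, hPV, hPK⟩ := hDRK ℚ_[q] (v + 1) A B K (by omega) (by
    intro g' hg'
    choose k hkS hk using hg'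
    have h1 := hMDV q v ι S W π den num ζ κ e g D H A B s₀ hM hs₀ hA hB he hNC k hkS
    have h2 := im_map φ A B (fun c l => ∑ i, (W (k c i) l - W s₀ l))
      (fun c => ((∏ i, π (k c i) : ℕ) : ℤ_[q]))
    have h3 : im A B (fun c => (g' c).1) (fun c => (g' c).2) =
        (im A B (fun c l => ∑ i, (W (k c i) l - W s₀ l))
          fun c => ((∏ i, π (k c i) : ℕ) : ℤ_[q])).map φ := by
      rw [← h2]
      have h4 : (fun c => (g' c).1) = fun c l => φ (∑ i, (W (k c i) l - W s₀ l)) := by
        funext c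
        rw [hk c]
      have h5 : (fun c => (g' c).2) = fun c => φ ((∏ i, π (k c i) : ℕ) : ℤ_[q]) := by
        funext c
        rw [hk c]
      rw [h4, h5]
    rw [h3]
    have h6 : ((im A B (fun c l => ∑ i, (W (k c i) l - W s₀ l))
        fun c => ((∏ i, π (k c i) : ℕ) : ℤ_[q])).map φ).det = φ ((im A B
          (fun c l => ∑ i, (W (k c i) l - W s₀ l))
            fun c => ((∏ i, π (k c i) : ℕ) : ℤ_[q])).det) := by
      rw [RingHom.map_det]
      rfl
    rw [h6, h1, map_zero])
  obtain ⟨hπ, hinj, -⟩ := hM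
  have h7 := hZLM ℚ_[q] (v + 1) A B ι S (fun s l => φ (W s l) - φ (W s₀ l))
    (fun s => (π s : ℚ_[q])) P hA (by omega) hP0 hPV
    (by
      intro s hs
      have := (hπ s hs).1
      exact_mod_cast (by omega : π s ≠ 0))
    (by
      intro s hs s' hs' hne n hn heq
      have h8 : π s ^ n = π s' ^ n := by exact_mod_cast heq
      have h9 : π s = π s' := Nat.pow_left_injective (by omega) h8
      exact hne (hinj hs hs' h9))
    (by
      intro k hk
      have h10 := hPK (fun l => φ (∑ i, (W (k i) l - W s₀ l)), φ ((∏ i, π (k i) : ℕ) : ℤ_[q]))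
        ⟨k, hk, rfl⟩
      have h11 : (∑ i, (fun l => φ (W (k i) l) - φ (W s₀ l)) : Fin (v + 1) → ℚ_[q]) =
          fun l => φ (∑ i, (W (k i) l - W s₀ l)) := by
        funext l
        rw [Finset.sum_apply, map_sum]
        exact Finset.sum_congr rfl (fun i _ => (map_sub φ _ _).symm)
      have h12 : (∏ i, (π (k i) : ℚ_[q])) = φ ((∏ i, π (k i) : ℕ) : ℤ_[q]) := by
        rw [map_natCast]
        push_cast
        rfl
      rw [h11, h12]
      exact h10)
  rcases h7 with h7 | ⟨U, hU, h7⟩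
  · left
    exact h7
  · right
    refine ⟨U, hU, ?_⟩
    have h13 : ((fun s => U.mkQ (fun l => φ (W s l) - φ (W s₀ l))) '' (S : Set ι)) =
        (fun x => x - U.mkQ (fun l => φ (W s₀ l))) ''
          ((fun s => U.mkQ fun l => φ (W s l)) '' (S : Set ι)) := by
      rw [Set.image_image]
      refine Set.image_congr (fun s _ => ?_)
      rw [← map_sub]
      rfl
    rw [h13, Set.ncard_image_of_injective _ (sub_left_injective)] at h7
    exact h7

end Pool.Agent.H88.RD
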