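import Pool.Agent.H82.RD.Targets
import Pool.Agent.H82.RD.Basic

/-!
# ZLF: lower bound for the Hilbert function
-/

set_option autoImplicit false

open MvPolynomial

namespace Pool.Agent.H88.RD

open Pool.Agent.H82.RD

/-- The exponent vector of a multiset and of a number. -/
noncomputable def ex {u : ℕ} (s : Finset (Option (Fin u))) (σ : Multiset (Option ↥s)) (b : ℕ) :
    Option (Fin u) →₀ ℕ :=
  Finsupp.equivFunOnFinite.symm
    (fun o => if h : o ∈ s then σ.count (some ⟨o, h⟩) else if o = none then b else 0)

theorem ex_apply {u : ℕ} (s : Finset (Option (Fin u))) (σ : Multiset (Option ↥s)) (b : ℕ)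
    (o : Option (Fin u)) :
    ex s σ b o = if h : o ∈ s then σ.count (some ⟨o, h⟩) else if o = none then b else 0 := rfl

theorem sum_ex {u : ℕ} (s : Finset (Option (Fin u))) (hs : none ∉ s) (σ : Multiset (Option ↥s))
    (b : ℕ) : ∑ i : Fin u, ex s σ b (some i) = ∑ a : ↥s, σ.count (some a) := by
  classical
  have h1 : ∑ o : Option (Fin u), (if h : o ∈ s then σ.count (some ⟨o, h⟩) else 0) =
      ∑ a : ↥s, σ.count (some a) := by
    rw [← Finset.sum_subset (Finset.subset_univ s)
      (f := fun o => if h : o ∈ s then σ.count (some ⟨o, h⟩) else 0)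
      (fun o _ ho => by simp [ho]), ← Finset.sum_coe_sort s]
    refine Finset.sum_congr rfl (fun a _ => ?_)
    simp
  rw [← h1, Fintype.sum_option]
  simp only [hs, dite_false, zero_add]
  refine Finset.sum_congr rfl (fun i _ => ?_)
  rw [ex_apply]
  simp

theorem card_eq {u : ℕ} (s : Finset (Option (Fin u))) (σ : Multiset (Option ↥s)) :
    σ.count none + ∑ a : ↥s, σ.count (some a) = σ.card := by
  classical
  have h := Fintype.sum_option (fun x : Option ↥s => σ.count x)
  rw [← h]
  exact Multiset.sum_count_eq_card (s := Finset.univ) (fun a _ => Finset.mem_univ a)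

theorem ex_inj {u n : ℕ} (s : Finset (Option (Fin u))) (hs : none ∉ s)
    (σ σ' : Multiset (Option ↥s)) (b b' : ℕ) (h1 : σ.card = n) (h2 : σ'.card = n)
    (h : ex s σ b = ex s σ' b') : σ = σ' ∧ b = b' := by
  classical
  have hc : ∀ a : ↥s, σ.count (some a) = σ'.count (some a) := by
    intro a
    have h3 := DFunLike.congr_fun h (a : Option (Fin u))
    rw [ex_apply, ex_apply] at h3
    simpa using h3
  constructor
  · ext x
    cases x with
    | some a => exact hc a
    | none =>
      have h4 := card_eq s σ
      have h5 := card_eq s σ'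
      have h6 : ∑ a : ↥s, σ.count (some a) = ∑ a : ↥s, σ'.count (some a) :=
        Finset.sum_congr rfl (fun a _ => hc a)
      omega
  · have h3 := DFunLike.congr_fun h (none : Option (Fin u))
    rw [ex_apply, ex_apply] at h3
    simpa [hs] using h3

/-- The set of the exponents. -/
def TT {u : ℕ} (s : Finset (Option (Fin u))) (a b : ℕ) : Set (Option (Fin u) →₀ ℕ) :=
  {m | (∀ o, m o ≠ 0 → o ∈ s) ∧ ∑ i : Fin u, m (some i) ≤ a ∧ m none ≤ b}

theorem card_TT {u : ℕ} (s : Finset (Option (Fin u))) (a b c : ℕ) (hc : c ≤ b + 1)
    (hc' : none ∉ s → c ≤ 1) :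
    ((s.erase none).card + a).choose a * c ≤ (TT s a b).ncard := by
  classical
  set s' := s.erase none with hs'
  have hn : none ∉ s' := by simp [hs']
  have hfin : (TT s a b).Finite := (finite_exponents a b).subset (fun m hm => hm.2)
  have : Finite (TT s a b) := hfin.to_subtype
  let f : Sym (Option ↥s') a × Fin c → TT s a b := fun x =>
    ⟨ex s' x.1.1 x.2, by
      refine ⟨?_, ?_, ?_⟩
      · intro o ho
        rw [ex_apply] at ho
        by_cases h : o ∈ s'
        · exact Finset.mem_of_mem_erase h
        · rw [dif_neg h] at ho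
          by_cases h2 : o = none
          · rw [if_pos h2] at ho
            by_contra hcon
            rw [h2] at hcon
            have h3 := hc' hcon
            have h4 := x.2.2
            omega
          · rw [if_neg h2] at ho
            exact absurd rfl ho
      · rw [sum_ex s' hn]
        have h1 := card_eq s' x.1.1
        have h2 : Multiset.card x.1.1 = a := x.1.2
        omega
      · rw [ex_apply, dif_neg hn, if_pos rfl]
        have h4 := x.2.2
        omega⟩
  have hf : Function.Injective f := by
    intro x y hxy
    have h1 := congrArg Subtype.val hxy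
    have h2 := ex_inj (n := a) s' hn x.1.1 y.1.1 x.2 y.2 x.1.2 y.1.2 h1
    exact Prod.ext (Subtype.ext h2.1) (Fin.ext h2.2)
  have h3 := Nat.card_le_card_of_injective f hf
  rw [Nat.card_coe_set_eq, Nat.card_eq_fintype_card, Fintype.card_prod, Fintype.card_fin,
    Sym.card_sym_eq_choose, Fintype.card_option, Fintype.card_coe] at h3
  have h4 : s'.card + 1 + a - 1 = s'.card + a := by omega
  rw [h4] at h3
  exact h3

theorem pow_le (e n : ℕ) : n ^ e ≤ e.factorial * (e + n).choose n := by
  have h1 := Nat.ascFactorial_eq_factorial_mul_choose n e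
  have h2 := Nat.pow_succ_le_ascFactorial (n + 1) e
  have h3 : (e + n).choose n = (n + e).choose e := by
    rw [add_comm e n]
    exact Nat.choose_symm_add
  rw [h3, ← h1]
  exact (Nat.pow_le_pow_left (Nat.le_succ n) e).trans h2

theorem hf_ge {k : Type} [Field k] {u : ℕ} (A B : ℕ) (p : Ideal (PR k u))
    (s : Finset (Option (Fin u))) (hI : Ind p s) (S : ℕ) :
    (TT s (A * S) (B * S)).ncard ≤ hf A B p S := by
  classical
  set T := TT s (A * S) (B * S) with hT
  set L := (Ideal.Quotient.mkₐ k p).toLinearMap with hL
  have hfin : T.Finite := (finite_exponents (A * S) (B * S)).subset (fun m hm => hm.2)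
  have : Finite T := hfin.to_subtype
  let W : Submodule k (PR k u) := restrictSupport k T
  have hW : W ≤ VV k u (A * S) (B * S) := restrictSupport_mono _ fun _ hm => hm.2
  have hWfin : Module.Finite k W := Module.Finite.of_basis (basisRestrictSupport k T)
  have h1 : Module.finrank k W = T.ncard :=
    Module.finrank_eq_nat_card_basis (basisRestrictSupport k T)
  have hker : ∀ f ∈ W, L f = 0 → f = 0 := by
    intro f hf h0
    have hI' : AlgebraicIndependent k
        ((fun o : Option (Fin u) => (Ideal.Quotient.mk p (X o : PR k u))) ∘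
          ((↑) : {x // x ∈ (s : Set (Option (Fin u)))} → Option (Fin u))) := hI
    rw [algebraicIndependent_comp_subtype] at hI'
    refine hI' f ?_ ?_
    · rw [mem_supported]
      intro o ho
      have ho' : o ∈ f.vars := ho
      rw [mem_vars_iff_mem_support] at ho'
      obtain ⟨m, hm, ho2⟩ := ho'
      have h4 : (f.support : Set (Option (Fin u) →₀ ℕ)) ⊆ T := by
        have hf' : f ∈ restrictSupport k T := hf
        rwa [mem_restrictSupport_iff] at hf'
      have h2 : m ∈ T := h4 hm
      exact h2.1 o (Finsupp.mem_support_iff.mp ho2)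
    · have h3 : (aeval (fun o : Option (Fin u) => (Ideal.Quotient.mk p (X o : PR k u))) :
          PR k u →ₐ[k] PR k u ⧸ p) = Ideal.Quotient.mkₐ k p := by
        apply algHom_ext
        intro o
        simp
      rw [h3]
      exact h0
  have hinj : Function.Injective (L.domRestrict W) := by
    rw [injective_iff_map_eq_zero]
    intro f hf
    exact Subtype.ext (hker f f.2 hf)
  have h2 : Module.finrank k (W.map L) = Module.finrank k W := by
    rw [← LinearMap.range_domRestrict]
    exact LinearMap.finrank_range_of_inj hinj
  rw [← h1, ← h2]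
  exact Submodule.finrank_mono (Submodule.map_mono hW)

theorem pf_ZLF : T_ZLF := by
  intro k _ u A B p s hA hB hI S
  have h1 := hf_ge A B p s hI S
  by_cases hn : none ∈ s
  · rw [if_pos hn]
    have h2 := card_TT s (A * S) (B * S) (B * S + 1) le_rfl (fun h => absurd hn h)
    have h3 : s.card = (s.erase none).card + 1 := (Finset.card_erase_add_one hn).symm
    set e := (s.erase none).card with he
    rw [h3, Nat.factorial_succ, Nat.add_sub_cancel]
    have h4 := pow_le e (A * S)
    have h5 : (e + 1) * (A * S) ^ e * (B * S) ≤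
        (e + 1) * (e.factorial * (e + A * S).choose (A * S)) * (B * S + 1) := by
      exact Nat.mul_le_mul (Nat.mul_le_mul_left _ h4) (Nat.le_succ _)
    calc (e + 1) * A ^ e * B * S ^ (e + 1) = (e + 1) * (A * S) ^ e * (B * S) := by ring
      _ ≤ (e + 1) * (e.factorial * (e + A * S).choose (A * S)) * (B * S + 1) := h5
      _ = (e + 1) * e.factorial * ((e + A * S).choose (A * S) * (B * S + 1)) := by ring
      _ ≤ (e + 1) * e.factorial * hf A B p S := Nat.mul_le_mul_left _ (h2.trans h1)
  · rw [if_neg hn]
    have h2 := card_TT s (A * S) (B * S) 1 (by omega) (fun _ => le_rfl)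
    rw [Finset.erase_eq_of_notMem hn, mul_one] at h2
    calc A ^ s.card * S ^ s.card = (A * S) ^ s.card := by ring
      _ ≤ s.card.factorial * (s.card + A * S).choose (A * S) := pow_le _ _
      _ ≤ s.card.factorial * hf A B p S := Nat.mul_le_mul_left _ (h2.trans h1)

end Pool.Agent.H88.RD
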